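import Pool.Agent.H877R3.Join.GapStage
import Pool.Agent.H877R3.Join.Post

/-!
# Oracles which make `P` and `PSPACE` equal, while relative to their joins `P`, `RP`, `NP` are
different

Above every oracle `C` there are infinitely many oracles `A 0, A 1, A 2, ...`, each of which makes
`P` and `PSPACE` equal, such that relative to the join of any two of them `P ≠ RP` and `RP ≠ NP`,
and `RP` is not even contained in `coNP`.
-/

namespace Pool.Agent.Results.MP_b573ec_lc.JoinRpNp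

open Pool.Agent.NPC Pool.Agent.H620R2.Gauge Pool.Agent.H877R3.Join

theorem result (C : Oracle) : ∃ A : ℕ → Oracle,
    (∀ i, Reduces {x | C x = true} {x | A i x = true} ∧
      (∀ L, IsPSPACE (A i) L → Reduces L {x | A i x = true}) ∧
      ∀ L, IsP (A i) L ↔ IsPSPACE (A i) L) ∧
    ∀ i j, i ≠ j →
      (∃ L, IsRP (join (A i) (A j)) L ∧
        ¬ Pool.Agent.H620R2.Gauge.IsNP (join (A i) (A j)) Lᶜ ∧ ¬ IsP (join (A i) (A j)) L) ∧
      ∃ L, Pool.Agent.H620R2.Gauge.IsNP (join (A i) (A j)) L ∧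
        ¬ IsRP (join (A i) (A j)) L := by
  obtain ⟨A, h1, h2⟩ := main3 C
  refine ⟨A, h1, fun i j hij => ⟨?_, ?_⟩⟩
  · obtain ⟨L, _, h3, h4⟩ := (h2 i j hij).1
    refine ⟨Lᶜ, h3, by rw [compl_compl]; exact h4, fun h => h4 ?_⟩
    obtain ⟨V, hV, hL⟩ := IsP.compl h
    refine ⟨fun y => V (unpair y).2, 0, hV.precomp (Poly.snd poly_unpair), fun x => ?_⟩
    rw [compl_compl] at hL
    rw [hL x]
    simp only [unpair_pairBits, Polynomial.eval_zero]
    exact ⟨fun h => ⟨[], le_rfl, h⟩, fun ⟨_, _, h⟩ => h⟩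
  · obtain ⟨L, h3, h4⟩ := (h2 i j hij).2
    exact ⟨L, h3, fun h => h4 (IsGap.of_RP h)⟩

end Pool.Agent.Results.MP_b573ec_lc.JoinRpNp
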