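import Pool.Agent.H530R3.Bp.Final

/-!
# `P = RP = BPP` and not `NP`, relative to random oracles with exponentially small densities

Choose a random oracle `A`: each string `x` is put into `A` independently of the others with
probability `p |x|`. Let `lam p n = 2 ^ n * min (p n) (1 - p n)` be the expected number of the
strings of length `n` with the less likely bit. Suppose that for every `m` there is a length `N` such
that `lam p N` is at least `m` and `2 ^ N` is at most a polynomial in `m`. We prove that almost surely
`P^A = RP^A = BPP^A`, and `NP^A` is not contained in `RP^A`, `NP^A ≠ coNP^A`, and `coNP^A` is not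
contained in `AM^A`.

The condition holds if `lam p n` is at least `2 ^ (ε * n)` for all large `n`, for some `ε > 0`; so the
densities may be as small as `2 ^ (- (1 - ε) * n)`. For `p n = 1 / 2` the result is due to Bennett and
Gill. In their proof the deterministic algorithm takes its coins from strings which are too long to
be asked for by the probabilistic one. This is not possible here, since a polynomial-time algorithm
which asks for any fixed long strings gets the more likely bit as the answer, with overwhelming
probability: the coins have to be taken from the strings of logarithmic length, and the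
probabilistic algorithm may ask for all of them.

Proof. All strings of length `O(log n)` are divided into `t` blocks, where `t` is much greater than
`n * d` if `d` is a bound for the number of the questions of the probabilistic algorithm. The parities
of the bits of the oracle in the cells of a block are almost fair coins. The probabilistic algorithm is
run once for the coins of each block, and the majority of the answers is taken. Suppose that the
majority is wrong. At most `O(n d)` blocks are asked for by a noticeable fraction of all runs of the
probabilistic algorithm, for this oracle; leave them out. Choose a set `S` of `k = 18 n` other blocks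
with wrong answers. Replace the bits in these blocks by zeros: this changes the run for few values of
the coins only, and the coins of the blocks in `S` are among those for which the run with the new
oracle is wrong or asks for a string in a block of `S`. The latter is an event of probability at
most `(2 / 5) ^ k`, as the coins of the blocks in `S` are independent of the new oracle. As a wrong
majority has at least `binom (9 t / 20 + k) k` sets `S`, among `binom t k` ones, the probability of a
wrong majority is at most `(8 / 9) ^ k`, which is less than `8 ^ (- n)`. There are `2 ^ n` inputs of
length `n`.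
-/

set_option autoImplicit false

namespace Pool.Agent.Results.MP_b573ec_lc.OracleDensity

open MeasureTheory
open Pool.Agent.H628R3.RO (IsNP)
open Pool.Agent.H583R2.S2 (IsP)
open Pool.Agent.H530R3.Thr (biasedOracle lam IsBPP IsAM)
open Pool.Agent.H530R3.Bp

theorem result :
    (∀ (p : ℕ → unitInterval) (P : Polynomial ℕ),
      (∀ m : ℕ, ∃ N : ℕ, 2 ^ N ≤ P.eval m ∧ (m : ℝ) ≤ lam p N) →
      ∀ᵐ A ∂(biasedOracle p),
        (∀ L : Set (List Bool), (IsP A L ↔ IsRP A L) ∧ (IsRP A L ↔ IsBPP A L)) ∧
        ∃ L : Set (List Bool), IsNP A L ∧ ¬ IsRP A L ∧ ¬ IsNP A Lᶜ ∧ ¬ IsAM A Lᶜ) ∧
    (∀ (p : ℕ → unitInterval) (ε : ℝ), 0 < ε →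
      (∀ᶠ n : ℕ in Filter.atTop, (2 : ℝ) ^ (ε * n) ≤ lam p n) →
      ∀ᵐ A ∂(biasedOracle p),
        (∀ L : Set (List Bool), (IsP A L ↔ IsRP A L) ∧ (IsRP A L ↔ IsBPP A L)) ∧
        ∃ L : Set (List Bool), IsNP A L ∧ ¬ IsRP A L ∧ ¬ IsNP A Lᶜ ∧ ¬ IsAM A Lᶜ) :=
  ⟨fun _ P h => main ⟨P, h⟩, fun _ _ hε h => main (rich_of_exp hε h)⟩

end Pool.Agent.Results.MP_b573ec_lc.OracleDensity
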