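import Pool.Agent.H831R3.MM.Ham

/-!
# Guessing a Hamiltonian cycle at random is nearly optimal for local tests

Nondeterminism and one-sided error randomness are compared in the following model. An algorithm
chooses `ω` (nondeterministically, or at random) and accepts the graph `G` if `G` passes all the
tests in the set `P ω`: any number of tests, arbitrary functions, each of which looks at no more
than `k` pairs of vertices of `G`.

A nondeterministic algorithm for Hamiltonicity: choose a cyclic order of the vertices, and test
that the `n` pairs of consecutive vertices are edges (`k = 1`). If `ω` is chosen at random from any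
finite set, and if the algorithm never accepts a graph without a Hamiltonian cycle, then for all
`k` and `n ≥ 3` there is a Hamiltonian graph that is accepted with probability at most
`2 k ^ n / (n - 1) !`. So for `k = n ^ o(1)` the success probability is `n ^ (- (1 - o(1)) n)`;
a random cyclic order succeeds with probability at least `2 / (n - 1) !`.
-/

set_option autoImplicit false

namespace Pool.Agent.Results.MP_b573ec_lc.RandomLocalTests

open Pool.Agent.H831R3.MM

/-- `Reads k g`: the test `g` looks at no more than `k` pairs of vertices of the graph. -/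
theorem result (n : ℕ) (hn : 3 ≤ n) :
    (∀ (k : ℕ) (Ω : Type) [Fintype Ω] (P : Ω → Set (SimpleGraph (Fin n) → Prop)),
      (∀ ω, ∀ g ∈ P ω, Reads k g) →
      (∀ (ω : Ω) (G : SimpleGraph (Fin n)), (∀ g ∈ P ω, g G) → G.IsHamiltonian) →
      ∃ G : SimpleGraph (Fin n), G.IsHamiltonian ∧
        (n - 1).factorial * Nat.card {ω : Ω // ∀ g ∈ P ω, g G} ≤ 2 * k ^ n * Fintype.card Ω) ∧
    ∃ P : Equiv.Perm (Fin n) → Set (SimpleGraph (Fin n) → Prop),
      (∀ σ, ∀ g ∈ P σ, Reads 1 g) ∧
        ∀ G : SimpleGraph (Fin n), G.IsHamiltonian ↔ ∃ σ, ∀ g ∈ P σ, g G :=
  ham_main n hn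

end Pool.Agent.Results.MP_b573ec_lc.RandomLocalTests
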