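import Pool.Agent.H554R2.Coin.Final

/-!
# Fast randomised programs: the success probability cannot be raised

For all `t` and all large `n` we give a function of `n` Boolean variables which randomised
one-pass programs with `t` coins compute without any error, with probability of success exactly
`2 ^ (- t)` on every input, and which a small deterministic program computes in two passes, while
no randomised program which is small and fast (few variables are queried twice, or there are few
more than `n` queries), with any number of coins and with one-sided error, has a probability of
success of more than `2 ^ (- t) + 2 ^ (- n / D)` on all the inputs with the value `false`; with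
two-sided error the probability of error is at least `(1 - 2 ^ (- t)) / 4 - 2 ^ (- n / D)` on some
input.  So zero error and success with probability `1 / 2` (the case `t = 1`) are more powerful
than determinism, and independent repetition, which makes the threshold in the definition of `RP`
irrelevant, is not available in this model.

The theorem is `final` of the starting file `Pool/Agent/H554R2/Coin/Final.lean` (by helper554 and
the helpers named in the files it imports), which had not been handed in.
-/

set_option autoImplicit false

namespace Pool.Agent.Results.MP_b573ec_lc.SuccessThreshold

open Finset Pool.Agent.H554R2.Sem Pool.Agent.H554R2.Coin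

/-- There is a constant `D` such that for all `t` and `n` with `D (t + 1) ≤ n` there is a function
`f` of `n` Boolean variables with the following properties.

* For every sequence `r` of `t` coins there is a deterministic program `U r` with
  `8 · 2 ^ t (n + 1)` nodes which on all inputs queries the variables of the list `l r` (which has
  no repetitions), in this order.  On every input `x` exactly one of the programs `U r`
  (`r = r₀`) outputs `f x`, and the others output `none`, i.e. no answer.
* A deterministic program with at most `8 · 2 ^ t (n + 1)` nodes, which queries no variable more
  than twice, computes `f`.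
* Let `P ω`, `ω ∈ Ω`, be a finite family of deterministic programs with fewer than `2 ^ (n / D)`
  nodes each.  A computation is fast if at most `n / D` variables are queried more than once, or
  if at most `n + n / D` queries are made.  (a) If no `P ω` outputs `false` on an input `x` with
  `f x = true`, then there is an input `x` with `f x = false` on which at most the fraction
  `1 / 2 ^ t + 1 / 2 ^ (n / D)` of the programs output `false` after a fast computation.  (b) In
  any case there is an input `x` on which at least the fraction
  `(1 / 4) (1 - 1 / 2 ^ t) - 1 / 2 ^ (n / D)` of the programs do not output `f x` after a fast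
  computation. -/
theorem result : ∃ D : ℕ, 0 < D ∧ ∀ t n : ℕ, D * (t + 1) ≤ n → ∃ f : Pt n → Bool,
    (∃ (U : (Fin t → Bool) → BP (Fin n) (Option Bool)) (l : (Fin t → Bool) → List (Fin n)),
      (∀ r, Fintype.card (U r).State = 8 * 2 ^ t * (n + 1) ∧ (l r).Nodup) ∧
      ∀ x, ∃ r₀, ∀ r, (U r).Comp x (l r) (if r = r₀ then some (f x) else none)) ∧
    (∃ P : BP (Fin n) Bool, Fintype.card P.State ≤ 8 * 2 ^ t * (n + 1) ∧
      ∀ x, ∃ l, (∀ i, l.count i ≤ 2) ∧ P.Comp x l (f x)) ∧
    (∀ (Ω : Type) [Fintype Ω] (P : Ω → BP (Fin n) Bool),
      (∀ ω, Fintype.card (P ω).State < 2 ^ (n / D)) →
      ((∀ ω x, f x = true → ¬ ∃ l, (P ω).Comp x l false) →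
        ∃ x, f x = false ∧
          (Nat.card {ω // ∃ l, (P ω).Comp x l false ∧
              ((univ.filter (fun i => 2 ≤ l.count i)).card ≤ n / D ∨
                l.length ≤ n + n / D)} : ℝ) ≤
            (1 / 2 ^ t + 1 / 2 ^ (n / D)) * Fintype.card Ω) ∧
      ∃ x, (1 / 4 * (1 - 1 / 2 ^ t) - 1 / 2 ^ (n / D)) * Fintype.card Ω ≤
        (Nat.card {ω // ¬ ∃ l, (P ω).Comp x l (f x) ∧
              ((univ.filter (fun i => 2 ≤ l.count i)).card ≤ n / D ∨
                l.length ≤ n + n / D)} : ℝ)) :=
  final

end Pool.Agent.Results.MP_b573ec_lc.SuccessThreshold
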